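import Pool.Agent.H14.TOW.Targets

/-!
# STA: a step of the tower
-/

set_option autoImplicit false

namespace Pool.Agent.H36.TOW

open MvPolynomial Pool.Agent.H14.TOW

/-- a transcendence basis indexed by `Fin n` -/
theorem tb_fin {k K : Type} [Field k] [Field K] [Algebra k K] (h : Fgn k K) :
    ∃ (n : ℕ) (u : Fin n → K), Algebra.trdeg k K = n ∧ AlgebraicIndependent k u := by
  have h1 : Algebra.EssFiniteType k K := IntermediateField.fg_top_iff.1 h
  obtain ⟨s, hs⟩ := exists_finset_isTranscendenceBasis k K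
  refine ⟨s.card, fun i => (s.equivFin.symm i : K), ?_, ?_⟩
  · rw [← hs.cardinalMk_eq_trdeg]; simp
  · exact hs.1.comp s.equivFin.symm s.equivFin.symm.injective

/-- the transcendence degree of a step -/
theorem trd_le {k K : Type} [Field k] [Field K] [Algebra k K] (E E' : IntermediateField k K)
    (h : E ≤ E') (m n n' : ℕ)
    (hm : ∀ u : Fin (m + 1) → K, (∀ i, u i ∈ E') → ¬ AlgebraicIndependent E u)
    (hn : Algebra.trdeg k E = n) (hn' : Algebra.trdeg k E' = n') : n' ≤ n + m := by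
  let _ : Algebra E E' := (IntermediateField.inclusion h).toRingHom.toAlgebra
  have : IsScalarTower k E E' := IsScalarTower.of_algebraMap_eq (fun x => rfl)
  have : IsScalarTower E E' K := IsScalarTower.of_algebraMap_eq (fun x => rfl)
  have h1 : Algebra.trdeg k E + Algebra.trdeg E E' = Algebra.trdeg k E' := trdeg_add_eq k E
  have h2 : Algebra.trdeg E E' ≤ m := by
    obtain ⟨s, hs⟩ := exists_isTranscendenceBasis E E'
    rw [← hs.cardinalMk_eq_trdeg]
    by_contra hc
    have hc' := not_le.1 hc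
    have h3 : Cardinal.mk (Fin (m + 1)) ≤ Cardinal.mk s := by
      rw [Cardinal.mk_fin]
      exact_mod_cast Order.succ_le_of_lt hc'
    obtain ⟨f⟩ := Cardinal.le_def _ _ |>.1 h3
    have h4 : AlgebraicIndependent E (fun i => ((f i : E') : K)) :=
      (hs.1.comp f f.injective).map' (f := IsScalarTower.toAlgHom E E' K)
        (fun a b hab => Subtype.ext hab)
    exact hm _ (fun i => (f i : E').2) h4
  rw [hn, hn'] at h1
  have h5 : ((n' : ℕ) : Cardinal) ≤ ((n + m : ℕ) : Cardinal) := by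
    rw [← h1]
    push_cast
    exact add_le_add le_rfl h2
  exact_mod_cast h5

/-- the generators of a subfield -/
theorem gens {k K : Type} [Field k] [Field K] [Algebra k K] (E : IntermediateField k K)
    (h : Fgn k E) : ∃ (q : ℕ) (w : Fin q → K), (∀ i, w i ∈ E) ∧ (∀ i, w i ≠ 0) ∧
      ∀ a ∈ E, ∃ r s : MvPolynomial (Fin q) k, aeval w s ≠ 0 ∧ a * aeval w s = aeval w r := by
  classical
  obtain ⟨t, ht⟩ := h
  let v : Fin t.card → E := fun i => if ((t.equivFin.symm i : E)) = 0 then 1 else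
    (t.equivFin.symm i : E)
  have hv : IntermediateField.adjoin k (Set.range v) = ⊤ := by
    rw [eq_top_iff, ← ht]
    refine IntermediateField.adjoin_le_iff.2 fun a ha => ?_
    by_cases h0 : a = 0
    · rw [h0]; exact (IntermediateField.adjoin k (Set.range v)).zero_mem
    · refine IntermediateField.subset_adjoin k _ ⟨t.equivFin ⟨a, ha⟩, ?_⟩
      show (if ((t.equivFin.symm (t.equivFin ⟨a, ha⟩) : E)) = 0 then 1 else
        (t.equivFin.symm (t.equivFin ⟨a, ha⟩) : E)) = a
      rw [Equiv.symm_apply_apply, if_neg h0]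
  have hc : ∀ p : MvPolynomial (Fin t.card) k,
      aeval (fun i => (v i : K)) p = ((aeval v p : E) : K) := fun p =>
    (MvPolynomial.aeval_algebraMap_apply (B := K) v p)
  refine ⟨t.card, fun i => (v i : K), fun i => (v i).2, fun i => ?_, fun a ha => ?_⟩
  · intro h0
    have h1 : v i = 0 := Subtype.ext h0
    by_cases h2 : ((t.equivFin.symm i : E)) = 0
    · have h3 : v i = 1 := if_pos h2
      rw [h3] at h1
      exact one_ne_zero h1
    · have h3 : v i = (t.equivFin.symm i : E) := if_neg h2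
      exact h2 (h3.symm.trans h1)
  · have h1 : (⟨a, ha⟩ : E) ∈ IntermediateField.adjoin k (Set.range v) := by
      rw [hv]; exact IntermediateField.mem_top
    obtain ⟨r, s, hrs⟩ := (IntermediateField.mem_adjoin_range_iff k v _).1 h1
    by_cases h0 : aeval v s = 0
    · refine ⟨0, 1, ?_, ?_⟩
      · rw [map_one]; exact one_ne_zero
      · rw [h0, div_zero] at hrs
        have : a = 0 := congrArg Subtype.val hrs
        rw [this, zero_mul, map_zero]
    · refine ⟨r, s, ?_, ?_⟩
      · rw [hc]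
        intro h2
        exact h0 (Subtype.ext h2)
      · rw [hc, hc]
        have h2 : (⟨a, ha⟩ : E) * aeval v s = aeval v r := by
          rw [hrs, div_mul_cancel₀ _ h0]
        exact congrArg Subtype.val h2

theorem pf_STA (h1 : T_INX) (h2 : T_RST) (h3 : T_RVR) (h4 : T_FGI) (h5 : T_FBS) (h6 : T_STR)
    (h7 : T_SPT) : T_STA := by
  classical
  intro k K _ _ _ _ _ σ E E' σE σE' hE hE' hF hN hcl hS e γ hI hSp
  obtain ⟨hle, hcase⟩ := hS
  have hFE : Fgn k E := h4 k K hF E
  have hFE' : Fgn k E' := h4 k K hF E'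
  obtain ⟨n, u, hn, hu⟩ := tb_fin hFE
  obtain ⟨n', u', hn', hu'⟩ := tb_fin hFE'
  have hN' : Nfb σE' := by
    intro a ha
    have h8 : σ (a : K) = (a : K) := by rw [← hE' a, ha]
    obtain ⟨c, hc⟩ := hN _ h8
    exact ⟨c, Subtype.ext hc⟩
  have huK : AlgebraicIndependent k (fun i => (u i : K)) :=
    hu.map' (f := E.val) E.val.injective
  -- INX for E'
  have key : ∀ (j : ℕ) (v : Fin j → E'), n' ≤ j + 1 → ∃ A : Finset K, (0 : K) ∉ A ∧
      ∀ (κ : Type) [Field κ] [Algebra k κ] (O : Subalgebra k K) (ρ : O →ₐ[k] κ)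
        (τ : κ →ₐ[k] κ), Plc σ O ρ τ → (∀ a ∈ A, Uni O ρ a) →
        Ind τ (fun i => rv O ρ (γ i : K)) →
        AlgebraicIndependent k (fun i => rv O ρ (v i : K)) →
        ∀ a ∈ E', a ≠ 0 → Uni O ρ a := by
    intro j v hj
    obtain ⟨A, hA0, hA⟩ := h1 k E' σE' hFE' hN' n' e j γ v hn' hI hSp hj
    refine ⟨A.image (fun a : E' => (a : K)), ?_, ?_⟩
    · intro h0
      obtain ⟨a, ha, ha0⟩ := Finset.mem_image.1 h0
      have : a = 0 := Subtype.ext ha0
      exact hA0 (this ▸ ha)
    · intro κ _ _ O ρ τ hP hU hI2 hv a ha ha0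
      obtain ⟨OE, ρE, hPE, hr⟩ := h2 k K κ σ O ρ τ E' σE' hE' hP
      have hUE : ∀ b : E', Uni OE ρE b ↔ Uni O ρ (b : K) := by
        intro b
        unfold Uni
        rw [(hr b).1, (hr b).2]
      refine (hUE ⟨a, ha⟩).1 (hA κ OE ρE τ hPE (fun b hb => ?_) ?_ ?_ ⟨a, ha⟩ ?_)
      · exact (hUE b).2 (hU _ (Finset.mem_image_of_mem _ hb))
      · have h8 : (fun i => rv OE ρE (γ i)) = fun i => rv O ρ (γ i : K) :=
          funext fun i => (hr (γ i)).2
        rw [h8]; exact hI2
      · have h8 : (fun i => rv OE ρE (v i)) = fun i => rv O ρ (v i : K) :=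
          funext fun i => (hr (v i)).2
        rw [h8]; exact hv
      · intro h0
        exact ha0 (congrArg Subtype.val h0)
  -- the place is injective on E
  have hinj : ∀ (κ : Type) [Field κ] [Algebra k κ] (O : Subalgebra k K) (ρ : O →ₐ[k] κ)
      (τ : κ →ₐ[k] κ), Plc σ O ρ τ → (∀ a ∈ E, a ≠ 0 → Uni O ρ a) →
      AlgebraicIndependent k (fun i => rv O ρ (u i : K)) := by
    intro κ _ _ O ρ τ hP hE0
    rw [algebraicIndependent_iff]
    intro p hp
    have hO : ∀ i, (u i : K) ∈ O := by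
      intro i
      by_cases h0 : (u i : K) = 0
      · rw [h0]; exact O.zero_mem
      · exact (hE0 _ (u i).2 h0).1
    have h8 := ((h3 k K κ σ O ρ τ hP).1 n (fun i => (u i : K)) hO p).2
    have h9 : aeval (fun i => (u i : K)) p = ((aeval u p : E) : K) :=
      MvPolynomial.aeval_algebraMap_apply (B := K) u p
    have h10 : aeval (fun i => (u i : K)) p = 0 := by
      by_contra h0
      refine (hE0 _ ?_ h0).2 (h8.trans hp)
      rw [h9]; exact (aeval u p : E).2
    exact (algebraicIndependent_iff.1 huK) p h10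
  rcases hcase with hc | ⟨hc, hbig⟩
  · have hnn : n' ≤ n + 1 := trd_le E E' hle 1 n n' hc hn hn'
    obtain ⟨A, hA0, hA⟩ := key n (fun i => ⟨u i, hle (u i).2⟩) hnn
    refine ⟨A, hA0, ?_⟩
    intro κ _ _ O ρ τ hP hU hI2 hE0 a ha ha0
    exact hA κ O ρ τ hP hU hI2 (hinj κ O ρ τ hP hE0) a ha ha0
  · have hnn : n' ≤ n + 2 := trd_le E E' hle 2 n n' hc hn hn'
    obtain ⟨e0, γ0, hI0, hS0⟩ := h5 k E σE hFE
    have hlt : e0 < e := h6 k K σ E E' σE σE' hE hE' hle hcl hbig e0 e γ0 γ hI0 hS0 hI hSp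
    obtain ⟨q, w, hwE, hw0, hw⟩ := gens E' hFE'
    have hσw : ∀ i, ∃ r s : MvPolynomial (Fin q) k, aeval w s ≠ 0 ∧
        σ (w i) * aeval w s = aeval w r := by
      intro i
      refine hw _ ?_
      have h8 := hE' ⟨w i, hwE i⟩
      have h9 : σ (w i) = (σE' ⟨w i, hwE i⟩ : K) := h8.symm
      rw [h9]; exact (σE' ⟨w i, hwE i⟩).2
    choose A B hB hAB using hσw
    choose A' B' hB' hAB' using fun l : Fin e => hw (γ l : K) (γ l).2
    choose AA hAA0 hAA using fun i : Fin q => key (n + 1)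
      (Fin.snoc (fun j => (⟨u j, hle (u j).2⟩ : E')) (⟨w i, hwE i⟩ : E') : Fin (n + 1) → E') hnn
    refine ⟨(Finset.univ.biUnion AA ∪ Finset.univ.image w) ∪
      (Finset.univ.image (fun i => aeval w (B i)) ∪
        Finset.univ.image (fun l => aeval w (B' l))), ?_, ?_⟩
    · intro h0
      rcases Finset.mem_union.1 h0 with h0 | h0
      · rcases Finset.mem_union.1 h0 with h0 | h0
        · obtain ⟨i, _, hi⟩ := Finset.mem_biUnion.1 h0
          exact hAA0 i hi
        · obtain ⟨i, _, hi⟩ := Finset.mem_image.1 h0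
          exact hw0 i hi
      · rcases Finset.mem_union.1 h0 with h0 | h0
        · obtain ⟨i, _, hi⟩ := Finset.mem_image.1 h0
          exact hB i hi
        · obtain ⟨i, _, hi⟩ := Finset.mem_image.1 h0
          exact hB' i hi
    · intro κ _ _ O ρ τ hP hU hI2 hE0 a ha ha0
      have hUA : ∀ i, ∀ a ∈ AA i, Uni O ρ a := fun i a ha => hU a (Finset.mem_union_left _
        (Finset.mem_union_left _ (Finset.mem_biUnion.2 ⟨i, Finset.mem_univ i, ha⟩)))
      have hUw : ∀ i, Uni O ρ (w i) := fun i => hU _ (Finset.mem_union_left _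
        (Finset.mem_union_right _ (Finset.mem_image_of_mem _ (Finset.mem_univ i))))
      have hUB : ∀ i, Uni O ρ (aeval w (B i)) := fun i => hU _ (Finset.mem_union_right _
        (Finset.mem_union_left _ (Finset.mem_image.2 ⟨i, Finset.mem_univ i, rfl⟩)))
      have hUB' : ∀ l, Uni O ρ (aeval w (B' l)) := fun l => hU _ (Finset.mem_union_right _
        (Finset.mem_union_right _ (Finset.mem_image.2 ⟨l, Finset.mem_univ l, rfl⟩)))
      by_cases hex : ∃ i, AlgebraicIndependent k
          (Fin.snoc (fun j => rv O ρ (u j : K)) (rv O ρ (w i)) : Fin (n + 1) → κ)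
      · obtain ⟨i, hi⟩ := hex
        refine hAA i κ O ρ τ hP (hUA i) hI2 ?_ a ha ha0
        have h8 : (fun j => rv O ρ (((Fin.snoc (fun j => (⟨u j, hle (u j).2⟩ : E'))
            (⟨w i, hwE i⟩ : E') : Fin (n + 1) → E') j : E') : K)) =
            (Fin.snoc (fun j => rv O ρ (u j : K)) (rv O ρ (w i)) : Fin (n + 1) → κ) := by
          funext j
          refine Fin.lastCases ?_ (fun j => ?_) j
          · rw [Fin.snoc_last, Fin.snoc_last]
          · rw [Fin.snoc_castSucc, Fin.snoc_castSucc]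
        rw [h8]; exact hi
      · have h8 : e ≤ e0 := h7 k K κ σ O ρ τ E σE n q e0 e (fun i => (u i : K)) w A B A' B'
          γ0 (fun i => (γ i : K)) hP hE hE0 (fun i => (u i).2) huK (fun i => (hUw i).1)
          (fun i => ⟨hUB i, hAB i⟩) (fun i hi => hex ⟨i, hi⟩) (fun l => ⟨hUB' l, hAB' l⟩) hS0 hI2
        exact absurd hlt (not_lt.2 h8)

end Pool.Agent.H36.TOW
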