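import Pool.Agent.H14.TOW.TargetsM
import Pool.Agent.H70.VZ.BAS

/-!
# MBE: bases of the coordinate ring
-/

set_option autoImplicit false

open MvPolynomial
open Pool.Agent.H12.ZD (pmap)
open Pool.Agent.H18.HIT Pool.Agent.H18.HX Pool.Agent.H18.VP Pool.Agent.H18.VZ
open Pool.Agent.H14.TOW

namespace Pool.Agent.H36.TOW

theorem pf_MBE (h1 : T_LIN) (h2 : T_DIC) (h3 : T_CON) (h4 : T_ALF) : T_MBE := by
  classical
  intro k E _ _ _ _ σ n r d e P F y γ hM hSp
  obtain ⟨Φ, hΦC, hΦX, hΦ⟩ := h3 k E σ (aeval y (F (Fin.succ 0))) d hM.ne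
    (by have := hM.two; omega)
  obtain ⟨α, hα⟩ : ∃ α : Po (n + 1 + 1) k →ₐ[k] RatFunc E,
      α = aeval (fun i => RatFunc.C (y i) * RatFunc.X) := ⟨_, rfl⟩
  obtain ⟨hker, hfrac, hcomm⟩ := h4 k E σ n r d P F y hM α hα
  have hc := hcomm Φ hΦC hΦX
  have hprime : Prime P := hM.hyp.irr.prime
  have hI : (Ideal.span {P}).IsPrime := (Ideal.span_singleton_prime hprime.ne_zero).2 hprime
  have hS : Slf (Ideal.span {P}) F := by
    refine ⟨fun c hc' => ?_, fun c hc' => ?_⟩
    · rw [Ideal.mem_span_singleton] at hc' ⊢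
      rw [← hker, ← hc, (hker c).2 hc', map_zero]
    · rw [Ideal.mem_span_singleton] at hc' ⊢
      rw [← hker, ← hc] at hc'
      exact (hker c).1 ((map_eq_zero Φ).1 hc')
  obtain ⟨ec, θ, hec, hgen, hind⟩ :=
    Pool.Agent.H74.HX.pf_PEI (n + 1 + 1) k (Ideal.span {P}) F hS
  choose s c hs hc' using fun (l : Fin (n + 1 + 1)) (j : Fin ec) => hgen (X l * θ ^ (j : ℕ))
  obtain ⟨Δ, hΔ⟩ : ∃ Δ : Po (n + 1 + 1) k, Δ = ∏ l, ∏ j, s l j := ⟨_, rfl⟩
  have hne : ¬ P ∣ Δ := by
    rw [hΔ, hprime.dvd_finsetProd_iff]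
    rintro ⟨l, -, hl⟩
    rw [hprime.dvd_finsetProd_iff] at hl
    obtain ⟨j, -, hj⟩ := hl
    exact hs l j (Ideal.mem_span_singleton.2 hj)
  have hdvd : ∀ l j, ∃ t, Δ = s l j * t := by
    intro l j
    have h5 : s l j ∣ ∏ j, s l j := Finset.dvd_prod_of_mem _ (Finset.mem_univ j)
    have h6 : (∏ j, s l j) ∣ ∏ l, ∏ j, s l j :=
      Finset.dvd_prod_of_mem (fun l => ∏ j, s l j) (Finset.mem_univ l)
    rw [hΔ]
    exact h5.trans h6
  choose t ht using hdvd
  refine ⟨ec, θ, Δ, ⟨hec, hne, ?_⟩, ?_⟩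
  · refine Pool.Agent.H70.VZ.bas_gen P F ec hec θ Δ (fun l j i => t l j * c l j i) fun l j => ?_
    have h5 : P ∣ aeval F (s l j) * (X l * θ ^ (j : ℕ)) -
        ∑ i : Fin ec, θ ^ (i : ℕ) * aeval F (c l j i) := Ideal.mem_span_singleton.1 (hc' l j)
    have h6 : aeval F Δ * (X l * θ ^ (j : ℕ)) -
        ∑ i : Fin ec, θ ^ (i : ℕ) * aeval F (t l j * c l j i) =
        aeval F (t l j) * (aeval F (s l j) * (X l * θ ^ (j : ℕ)) -
          ∑ i : Fin ec, θ ^ (i : ℕ) * aeval F (c l j i)) := by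
      rw [ht l j]
      simp only [map_mul, mul_sub, Finset.mul_sum]
      have e1 : ∑ x : Fin ec, θ ^ (x : ℕ) * (aeval F (t l j) * aeval F (c l j x)) =
          ∑ x : Fin ec, aeval F (t l j) * (θ ^ (x : ℕ) * aeval F (c l j x)) :=
        Finset.sum_congr rfl fun x _ => by ring
      rw [e1]
      ring
    rw [h6]
    exact Dvd.dvd.mul_left h5 _
  · -- independence of the powers of `θ` over the image of `Φ`
    have hInd : Ind Φ (fun i : Fin ec => α θ ^ (i : ℕ)) := by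
      intro a ha
      choose A B hB hAB using fun i => hfrac (a i)
      have hD : ∀ i, α (∏ j ∈ Finset.univ.erase i, B j) ≠ 0 := by
        intro i
        rw [map_prod]
        exact Finset.prod_ne_zero_iff.2 fun j _ => hB j
      have h5 : ∀ i, a i * α (∏ j, B j) = α (A i * ∏ j ∈ Finset.univ.erase i, B j) := by
        intro i
        rw [← Finset.mul_prod_erase Finset.univ B (Finset.mem_univ i), map_mul, map_mul,
          ← mul_assoc, hAB i]
      have h6 : α (∑ i : Fin ec, θ ^ (i : ℕ) *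
          aeval F (A i * ∏ j ∈ Finset.univ.erase i, B j)) = 0 := by
        rw [map_sum]
        have h7 : ∀ i : Fin ec, α (θ ^ (i : ℕ) *
            aeval F (A i * ∏ j ∈ Finset.univ.erase i, B j)) =
            Φ (α (∏ j, B j)) * (α θ ^ (i : ℕ) * Φ (a i)) := by
          intro i
          rw [map_mul, map_pow, ← hc, ← h5 i, map_mul]
          ring
        rw [Finset.sum_congr rfl fun i _ => h7 i, ← Finset.mul_sum, ha, mul_zero]
      have h7 := hind _ (Ideal.mem_span_singleton.2 ((hker _).1 h6))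
      intro i
      have h8 : α (A i * ∏ j ∈ Finset.univ.erase i, B j) = 0 :=
        (hker _).2 (Ideal.mem_span_singleton.1 (h7 i))
      rw [map_mul] at h8
      have h9 : α (A i) = 0 := (mul_eq_zero.1 h8).resolve_right (hD i)
      have h10 := hAB i
      rw [h9] at h10
      exact (mul_eq_zero.1 h10).resolve_right (hB i)
    have h5 := (h1 k (RatFunc E) Φ (Fin e × Fin d) (Fin ec)
      (fun i : Fin e × Fin d => RatFunc.C (γ i.1) * RatFunc.X ^ (i.2 : ℕ))
      (fun i : Fin ec => α θ ^ (i : ℕ)) (fun i => (hΦ e γ).2 hSp _) hInd).1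
    rw [Fintype.card_prod, Fintype.card_fin, Fintype.card_fin, Fintype.card_fin, mul_comm] at h5
    exact h5

end Pool.Agent.H36.TOW
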